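import Pool.Agent.STR.Stmts

/-! # TGT: the uniform law on `A` is close to the smoothed density (squad STR) -/

set_option autoImplicit false

noncomputable section

namespace Pool.Agent.STR.H40

open Finset

section av

variable {Ω Ω' : Type} [Fintype Ω] [Fintype Ω']

theorem av_sub (f g : Ω → ℝ) : av (fun x => f x - g x) = av f - av g := by
  unfold av; rw [Finset.sum_sub_distrib, sub_div]

theorem av_mul_left (c : ℝ) (f : Ω → ℝ) : av (fun x => c * f x) = c * av f := by
  unfold av; rw [← Finset.mul_sum, mul_div_assoc]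

theorem av_const [Nonempty Ω] (c : ℝ) : av (fun _ : Ω => c) = c := by
  unfold av
  rw [Finset.sum_const, card_univ, nsmul_eq_mul, mul_div_cancel_left₀]
  exact_mod_cast Fintype.card_ne_zero

theorem av_mono {f g : Ω → ℝ} (h : ∀ x, f x ≤ g x) : av f ≤ av g := by
  unfold av
  exact div_le_div_of_nonneg_right (Finset.sum_le_sum fun x _ => h x) (Nat.cast_nonneg _)

theorem abs_av_le (f : Ω → ℝ) : |av f| ≤ av (fun x => |f x|) := by
  unfold av
  rw [abs_div, Nat.abs_cast]
  exact div_le_div_of_nonneg_right (Finset.abs_sum_le_sum_abs _ _) (Nat.cast_nonneg _)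

theorem abs_av_le_const [Nonempty Ω] (f : Ω → ℝ) (c : ℝ) (h : ∀ x, |f x| ≤ c) : |av f| ≤ c :=
  (abs_av_le f).trans ((av_mono h).trans (av_const c).le)

theorem av_prod (f : Ω × Ω' → ℝ) : av f = av (fun x => av (fun y => f (x, y))) := by
  unfold av
  rw [Fintype.sum_prod_type, Fintype.card_prod, ← Finset.sum_div, div_div, Nat.cast_mul]
  rw [mul_comm (Fintype.card Ω : ℝ)]

theorem av_equiv (e : Ω ≃ Ω') (f : Ω' → ℝ) : av (fun x => f (e x)) = av f := by
  unfold av
  rw [Equiv.sum_comp e f, Fintype.card_congr e]

theorem sqrt_av_sq_le [Nonempty Ω] (f : Ω → ℝ) (c : ℝ) (hc : 0 ≤ c) (h : ∀ x, |f x| ≤ c) :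
    Real.sqrt (av fun x => f x ^ 2) ≤ c := by
  apply Real.sqrt_le_iff.2 ⟨hc, ?_⟩
  have : av (fun x => f x ^ 2) ≤ av (fun _ : Ω => c ^ 2) := by
    apply av_mono
    intro x
    rw [← sq_abs (f x)]
    exact pow_le_pow_left₀ (abs_nonneg _) (h x) 2
  exact this.trans (av_const _).le

end av

/-- POI with noise rate `0` for a function of mean `0` -/
theorem poi_zero (hPOI : PoiStmt) (hNOI : NoiStmt) {α : Type} [Fintype α] [DecidableEq α]
    (G h : (α → Bool) → ℝ) (c : ℝ) (hc : 0 ≤ c) (hG : ∀ x, |G x| ≤ c) (h0 : av G = 0)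
    (hh : Lip h) : |av (fun x => G x * h x)| ≤ c * Real.sqrt (Fintype.card α) / 2 := by
  have h1 := (hNOI α 0 G (-c) c le_rfl zero_le_one (fun x => (abs_le.1 (hG x)).1)
    (fun x => (abs_le.1 (hG x)).2)).2.2
  have h2 := hPOI α 0 G h le_rfl zero_le_one hh
  have h3 : av (fun x => T 0 G x * h x) = 0 := by
    have : (fun x => T 0 G x * h x) = fun x => 0 * h x := by
      funext x
      rw [h1 x, h0]
    rw [this, av_mul_left, zero_mul]
  rw [h3, sub_zero, sub_zero, one_mul] at h2
  refine h2.trans ?_
  have := sqrt_av_sq_le G c hc hG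
  gcongr

/-- **TGT** -/
theorem tgt (hPOI : PoiStmt) (hNOI : NoiStmt) : TgtStmt := by
  intro α β _ _ _ _ _ A e ρ h he he1 hρ hρ1 hcard hh
  -- the total number of points
  have hA : (Fintype.card (α ⊕ β → Bool) : ℝ) = 2 * A.card := by
    rw [← hcard]; push_cast; ring
  have hA0 : (0 : ℝ) < A.card := by
    have : (0 : ℝ) < Fintype.card (α ⊕ β → Bool) := by
      exact_mod_cast Fintype.card_pos
    linarith
  set F : (α ⊕ β → Bool) → ℝ := den e A with hF
  have hFe : ∀ x, 0 ≤ F x ∧ F x ≤ 2 := by
    intro x
    rw [hF]; unfold den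
    split_ifs <;> constructor <;> linarith
  -- step 1
  have s1 : (∑ x ∈ A, h x) / A.card = av (fun x => (if x ∈ A then 2 else 0) * h x) := by
    unfold av
    have : ∑ x, (if x ∈ A then (2 : ℝ) else 0) * h x = 2 * ∑ x ∈ A, h x := by
      rw [Finset.mul_sum]
      simp only [ite_mul, zero_mul]
      rw [Finset.sum_ite_mem, Finset.univ_inter]
    rw [this, hA]
    field_simp
  -- step 2
  have s2 : |av (fun x => (if x ∈ A then (2 : ℝ) else 0) * h x) - av (fun x => F x * h x)| ≤
      e * Real.sqrt (Fintype.card α + Fintype.card β) / 2 := by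
    rw [← av_sub]
    have e1 : (fun x => (if x ∈ A then (2 : ℝ) else 0) * h x - F x * h x) =
        fun x => ((if x ∈ A then e else -e)) * h x := by
      funext x
      rw [hF]; unfold den
      split_ifs <;> ring
    rw [e1]
    have := poi_zero hPOI hNOI (fun x : α ⊕ β → Bool => if x ∈ A then e else -e) h e he.le
      (fun x => by
        split_ifs
        · rw [abs_of_pos he]
        · rw [abs_neg, abs_of_pos he])
      (by
        unfold av
        rw [Finset.sum_ite, Finset.sum_const, Finset.sum_const]
        have c1 : (univ.filter fun x => x ∈ A).card = A.card := by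
          congr 1; ext x; simp
        have c2 : ((univ.filter fun x => x ∉ A).card : ℝ) = A.card := by
          have := Finset.card_filter_add_card_filter_not (s := (univ : Finset (α ⊕ β → Bool)))
            (fun x => x ∈ A)
          rw [c1, Finset.card_univ, ← hcard] at this
          have h5 : (univ.filter fun x => x ∉ A).card = A.card := by omega
          rw [h5]
        rw [nsmul_eq_mul, nsmul_eq_mul, c1, c2]
        ring_nf
        ) hh
    rw [Fintype.card_sum, Nat.cast_add] at this
    exact this
  -- step 3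
  have s3 : av (fun x => F x * h x) = av (fun p : (α → Bool) × (β → Bool) =>
      F (Sum.elim p.1 p.2) * h (Sum.elim p.1 p.2)) := by
    rw [← av_equiv (Equiv.sumArrowEquivProdArrow α β Bool).symm]
    rfl
  have s4 : |av (fun p : (α → Bool) × (β → Bool) =>
      F (Sum.elim p.1 p.2) * h (Sum.elim p.1 p.2)) -
      av (fun p : (α → Bool) × (β → Bool) => mar F p.1 * h (Sum.elim p.1 p.2))| ≤
      Real.sqrt (Fintype.card β) := by
    rw [← av_sub, av_prod]
    apply abs_av_le_const
    intro y
    have hm : 0 ≤ mar F y ∧ mar F y ≤ 2 := by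
      unfold mar
      constructor
      · have := av_mono (Ω := β → Bool) (f := fun _ => 0) (g := fun z => F (Sum.elim y z))
          (fun z => (hFe _).1)
        rwa [av_const] at this
      · have := av_mono (Ω := β → Bool) (f := fun z => F (Sum.elim y z)) (g := fun _ => 2)
          (fun z => (hFe _).2)
        rwa [av_const] at this
    have h5 := poi_zero hPOI hNOI (fun z : β → Bool => F (Sum.elim y z) - mar F y)
      (fun z => h (Sum.elim y z)) 2 (by norm_num) (fun z => by
        have := hFe (Sum.elim y z)
        rw [abs_le]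
        constructor <;> linarith) (by
        rw [av_sub, av_const]
        unfold mar
        ring) (by
        intro z i
        have := hh (Sum.elim y z) (Sum.inr i)
        have e2 : fl (Sum.elim y z) (Sum.inr i) = Sum.elim y (fl z i) := by
          unfold fl
          rw [Sum.update_elim_inr]
          rfl
        rw [e2] at this
        exact this)
    have e3 : 2 * Real.sqrt (Fintype.card β) / 2 = Real.sqrt (Fintype.card β) := by ring
    rw [e3] at h5
    convert h5 using 3
    funext z
    ring
  -- step 5
  set h' : (α → Bool) → ℝ := fun y => av (fun z : β → Bool => h (Sum.elim y z)) with hh'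
  have hLip' : Lip h' := by
    intro y i
    rw [hh']
    simp only
    rw [← av_sub]
    apply abs_av_le_const
    intro z
    have := hh (Sum.elim y z) (Sum.inl i)
    have e2 : fl (Sum.elim y z) (Sum.inl i) = Sum.elim (fl y i) z := by
      unfold fl
      rw [Sum.update_elim_inl]
      rfl
    rw [e2] at this
    exact this
  have s5 : ∀ u : (α → Bool) → ℝ, av (fun p : (α → Bool) × (β → Bool) =>
      u p.1 * h (Sum.elim p.1 p.2)) = av (fun y => u y * h' y) := by
    intro u
    rw [av_prod]
    congr 1
    funext y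
    rw [hh']
    simp only
    rw [av_mul_left]
  have s6 : |av (fun y => mar F y * h' y) - av (fun y => T ρ (mar F) y * h' y)| ≤
      Real.sqrt ((1 - ρ) * Fintype.card α) := by
    have h6 := hPOI α ρ (mar F) h' hρ hρ1 hLip'
    refine h6.trans ?_
    have h7 : Real.sqrt (av fun y => mar F y ^ 2) ≤ 2 := by
      apply sqrt_av_sq_le _ _ (by norm_num)
      intro y
      unfold mar
      apply abs_av_le_const
      intro z
      rw [abs_le]
      have := hFe (Sum.elim y z)
      constructor <;> linarith
    have h8 := Real.sqrt_nonneg ((1 - ρ) * Fintype.card α)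
    nlinarith
  rw [s1]
  rw [s3] at s2
  rw [s5 (mar F)] at s4
  rw [s5 (T ρ (mar F))]
  have t1 := abs_sub_le (av (fun x => (if x ∈ A then (2 : ℝ) else 0) * h x))
    (av (fun p : (α → Bool) × (β → Bool) => F (Sum.elim p.1 p.2) * h (Sum.elim p.1 p.2)))
    (av (fun y => T ρ (mar F) y * h' y))
  have t2 := abs_sub_le
    (av (fun p : (α → Bool) × (β → Bool) => F (Sum.elim p.1 p.2) * h (Sum.elim p.1 p.2)))
    (av (fun y => mar F y * h' y))
    (av (fun y => T ρ (mar F) y * h' y))
  linarith

end Pool.Agent.STR.H40
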